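import Mathlib

/-!
# `(L_3)` does not imply `(L_2)`

On a 4-manifold identify `so(4) = su(2) + su(2)`.  For an Einstein, half conformally flat algebraic
curvature tensor the form `g(Ric_L T, T)` on harmonic polynomials of degree `k` is, up to a positive
factor, the asymmetric-top Hamiltonian `A_1 J_1^2 + A_2 J_2^2 + A_3 J_3^2` on spin `k/2`.  For
`A` proportional to `(-6, 5, 19)` it is positive on spins `3/2` and `1/2`, but has the negative
eigenvalue `A_1 + A_2` on spin `1`.  We take a metric near `0` in `R^4` with this curvature at `0`;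
positivity on symmetric 3-tensors is an open condition.
-/

open scoped ContDiff Topology
open Matrix

namespace Pool.Agent.Results.MP_9e0eae_gt.LichnerowiczL3NotL2

/-- Points of the coordinate space `ℝⁿ`, and also tangent vectors (by their components in the
coordinate frame `∂_0, …, ∂_{n-1}`). -/
abbrev Vec (n : ℕ) : Type := Fin n → ℝ

/-- The coefficient matrix `(g_ij(x))` of a metric in the standard coordinates of `ℝⁿ`. -/
abbrev MetricField (n : ℕ) : Type := Vec n → Matrix (Fin n) (Fin n) ℝ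

/-- `g` restricts to a smooth Riemannian metric on the open set `U ⊆ ℝⁿ`. -/
structure IsRiemannianMetricOn {n : ℕ} (g : MetricField n) (U : Set (Vec n)) : Prop where
  isOpen : IsOpen U
  smooth : ∀ i j, ContDiffOn ℝ ∞ (fun x => g x i j) U
  posDef : ∀ x ∈ U, (g x).PosDef

/-- The partial derivative `∂_i f` at `x`. -/
noncomputable def pd {n : ℕ} (i : Fin n) (f : Vec n → ℝ) (x : Vec n) : ℝ :=
  fderiv ℝ f x (Pi.single i 1)

/-- The Christoffel symbol `Γ^l_{ij}` of the Levi-Civita connection of `g`: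
`Γ^l_{ij} = ½ ∑_m g^{lm} (∂_i g_{jm} + ∂_j g_{im} - ∂_m g_{ij})`. -/
noncomputable def christoffel {n : ℕ} (g : MetricField n) (l i j : Fin n) (x : Vec n) : ℝ :=
  (1 / 2) * ∑ m, (g x)⁻¹ l m *
    (pd i (fun y => g y j m) x + pd j (fun y => g y i m) x - pd m (fun y => g y i j) x)

/-- The components of the curvature tensor: `R(∂_i, ∂_j) ∂_k = ∑_l (riem g l k i j) ∂_l`, where
`R(X,Y) = ∇_X ∇_Y - ∇_Y ∇_X - ∇_[X,Y]`. -/
noncomputable def riem {n : ℕ} (g : MetricField n) (l k i j : Fin n) (x : Vec n) : ℝ :=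
  pd i (christoffel g l j k) x - pd j (christoffel g l i k) x
    + ∑ m, (christoffel g l i m x * christoffel g m j k x
      - christoffel g l j m x * christoffel g m i k x)

/-- The tangent vector `R(X,Y)Z` at `x`. -/
noncomputable def curv {n : ℕ} (g : MetricField n) (x : Vec n) (X Y Z : Vec n) : Vec n :=
  fun l => ∑ i, ∑ j, ∑ k, X i * Y j * Z k * riem g l k i j x

/-- `e` is a `g`-orthonormal basis of the tangent space at `x`. -/
def IsOrthonormalAt {n : ℕ} (g : MetricField n) (x : Vec n) (e : Fin n → Vec n) : Prop :=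
  ∀ a b, e a ⬝ᵥ (g x *ᵥ e b) = if a = b then 1 else 0

/-- `(0,k)`-tensors at a point. -/
abbrev Tensor (n k : ℕ) : Type := MultilinearMap ℝ (fun _ : Fin k => Vec n) ℝ

/-- The tensor is symmetric. -/
def IsSymmTensor {n k : ℕ} (T : Tensor n k) : Prop :=
  ∀ (σ : Equiv.Perm (Fin k)) (X : Fin k → Vec n), T (fun i => X (σ i)) = T X

/-- The derivation action of `R(X,Y)` on a `(0,k)`-tensor:
`(R(X,Y)T)(Z_1,…,Z_k) = - ∑_m T(Z_1,…,R(X,Y)Z_m,…,Z_k)`. -/
noncomputable def curvAct {n k : ℕ} (g : MetricField n) (x : Vec n) (X Y : Vec n) (T : Tensor n k)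
    (Z : Fin k → Vec n) : ℝ :=
  - ∑ m, T (Function.update Z m (curv g x X Y (Z m)))

/-- The curvature term of the Lichnerowicz Laplacian, computed in the basis `e`:
`Ric_L(T)(X_1,…,X_k) = ∑_i ∑_a (R(e_a,X_i)T)(X_1,…,X_{i-1},e_a,X_{i+1},…,X_k)`. -/
noncomputable def ricL {n k : ℕ} (g : MetricField n) (x : Vec n) (e : Fin n → Vec n)
    (T : Tensor n k) (X : Fin k → Vec n) : ℝ :=
  ∑ i, ∑ a, curvAct g x (e a) (X i) T (Function.update X i (e a))

/-- The inner product `g(Ric_L(T), T)` of `(0,k)`-tensors, computed in the orthonormal basis `e`. -/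
noncomputable def ricLForm {n k : ℕ} (g : MetricField n) (x : Vec n) (e : Fin n → Vec n)
    (T : Tensor n k) : ℝ :=
  ∑ a : Fin k → Fin n, ricL g x e T (fun i => e (a i)) * T (fun i => e (a i))

/-- Condition `(𝓛_k)` for the Riemannian manifold `(U, g)`: at every point of `U` (and for every
orthonormal basis there), `g(Ric_L(T), T) ≥ 0` for every symmetric `(0,k)`-tensor `T`. -/
def ConditionL {n : ℕ} (g : MetricField n) (U : Set (Vec n)) (k : ℕ) : Prop :=
  ∀ x ∈ U, ∀ e : Fin n → Vec n, IsOrthonormalAt g x e →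
    ∀ T : Tensor n k, IsSymmTensor T → 0 ≤ ricLForm g x e T

/-! ### The algebraic curvature tensor -/

def w1 : Matrix (Fin 4) (Fin 4) ℤ := !![0, 1, 0, 0; -1, 0, 0, 0; 0, 0, 0, 1; 0, 0, -1, 0]
def w2 : Matrix (Fin 4) (Fin 4) ℤ := !![0, 0, 1, 0; 0, 0, 0, -1; -1, 0, 0, 0; 0, 1, 0, 0]
def w3 : Matrix (Fin 4) (Fin 4) ℤ := !![0, 0, 0, 1; 0, 0, 1, 0; 0, -1, 0, 0; -1, 0, 0, 0]
def v1 : Matrix (Fin 4) (Fin 4) ℤ := !![0, 1, 0, 0; -1, 0, 0, 0; 0, 0, 0, -1; 0, 0, 1, 0]
def v2 : Matrix (Fin 4) (Fin 4) ℤ := !![0, 0, 1, 0; 0, 0, 0, 1; -1, 0, 0, 0; 0, -1, 0, 0]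
def v3 : Matrix (Fin 4) (Fin 4) ℤ := !![0, 0, 0, 1; 0, 0, -1, 0; 0, 1, 0, 0; -1, 0, 0, 0]

def opz (i j k l : Fin 4) : ℤ :=
  -9 * (w1 i j * w1 k l) + 2 * (w2 i j * w2 k l) + 16 * (w3 i j * w3 k l)
    + 3 * (v1 i j * v1 k l) + 3 * (v2 i j * v2 k l) + 3 * (v3 i j * v3 k l)

lemma opz_symm1 : ∀ i j k l, opz j i k l = - opz i j k l := by decide
lemma opz_symm2 : ∀ i j k l, opz i j l k = - opz i j k l := by decide
lemma opz_symm3 : ∀ i j k l, opz k l i j = opz i j k l := by decide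
lemma opz_bianchi : ∀ i j k l, opz i j k l + opz j k i l + opz k i j l = 0 := by decide

/-- `op i j k l = ⟨R(e_i, e_j) e_l, e_k⟩`. -/
noncomputable def op (i j k l : Fin 4) : ℝ := (opz i j k l : ℝ)

lemma op_symm1 (i j k l : Fin 4) : op j i k l = - op i j k l := by
  unfold op; rw [opz_symm1]; push_cast; ring
lemma op_symm2 (i j k l : Fin 4) : op i j l k = - op i j k l := by
  unfold op; rw [opz_symm2]; push_cast; ring
lemma op_symm3 (i j k l : Fin 4) : op k l i j = op i j k l := by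
  unfold op; rw [opz_symm3]
lemma op_bianchi (i j k l : Fin 4) : op i j k l + op j k i l + op k i j l = 0 := by
  unfold op; exact_mod_cast opz_bianchi i j k l

/-- The metric. -/
noncomputable def gm : MetricField 4 := fun x =>
  Matrix.of fun i j => (if i = j then (1 : ℝ) else 0) - (1 / 3) * ∑ k, ∑ l, op i k j l * x k * x l

lemma gm_apply (x : Vec 4) (i j : Fin 4) :
    gm x i j = (if i = j then (1 : ℝ) else 0) - (1 / 3) * ∑ k, ∑ l, op i k j l * x k * x l := rfl

lemma gm_zero : gm 0 = 1 := by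
  ext i j
  simp [gm_apply, Matrix.one_apply]

lemma hasFDerivAt_coord (x : Vec 4) (k : Fin 4) :
    HasFDerivAt (fun y : Vec 4 => y k) (ContinuousLinearMap.proj (R := ℝ) (φ := fun _ => ℝ) k) x :=
  (ContinuousLinearMap.proj (R := ℝ) (φ := fun _ : Fin 4 => ℝ) k).hasFDerivAt

lemma contDiff_gm (i j : Fin 4) : ContDiff ℝ ∞ (fun x => gm x i j) := by
  simp only [gm_apply]
  fun_prop

lemma pd_quad (m : Fin 4) (a b : ℝ) (c : Fin 4 → Fin 4 → ℝ) (x : Vec 4) :
    pd m (fun y => a - b * ∑ k, ∑ l, c k l * y k * y l) x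
      = - b * ∑ l, (c m l + c l m) * x l := by
  have h : HasFDerivAt (fun y : Vec 4 => a - b * ∑ k, ∑ l, c k l * y k * y l)
      (-(b • ∑ k : Fin 4, ∑ l : Fin 4, ((c k l * x k) • ContinuousLinearMap.proj (R := ℝ) (φ := fun _ => ℝ) l
        + (x l) • (c k l • ContinuousLinearMap.proj (R := ℝ) (φ := fun _ => ℝ) k)))) x := by
    refine HasFDerivAt.const_sub (HasFDerivAt.const_mul ?_ b) a
    refine HasFDerivAt.fun_sum fun k _ => HasFDerivAt.fun_sum fun l _ => ?_
    exact ((hasFDerivAt_coord x k).const_mul (c k l)).mul (hasFDerivAt_coord x l)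
  unfold pd
  rw [h.fderiv]
  simp [Fin.sum_univ_four, Pi.single_apply]
  fin_cases m <;> simp <;> ring

lemma pd_gm (m i j : Fin 4) (x : Vec 4) :
    pd m (fun y => gm y i j) x = - (1 / 3) * ∑ l, (op i m j l + op i l j m) * x l := by
  simp only [gm_apply]
  rw [pd_quad]

lemma hasFDerivAt_lin (c : Fin 4 → ℝ) (x : Vec 4) :
    HasFDerivAt (fun y : Vec 4 => ∑ l, c l * y l)
      (∑ l : Fin 4, c l • ContinuousLinearMap.proj (R := ℝ) (φ := fun _ => ℝ) l) x := by
  refine HasFDerivAt.fun_sum fun l _ => ?_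
  exact (hasFDerivAt_coord x l).const_mul (c l)


/-- coefficient of `x c` in the first-kind Christoffel symbol (times two) -/
noncomputable def dco (i j m c : Fin 4) : ℝ :=
  - (1 / 3) * ((op j i m c + op j c m i) + (op i j m c + op i c m j) - (op i m j c + op i c j m))

lemma chris_eq (l i j : Fin 4) (x : Vec 4) :
    christoffel gm l i j x = (1 / 2) * ∑ m, (gm x)⁻¹ l m * ∑ c, dco i j m c * x c := by
  unfold christoffel
  simp only [pd_gm]
  congr 1
  refine Finset.sum_congr rfl fun m _ => ?_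
  congr 1
  simp only [dco, Finset.mul_sum, ← Finset.sum_add_distrib, ← Finset.sum_sub_distrib]
  refine Finset.sum_congr rfl fun c _ => ?_
  ring

lemma contDiffAt_ginv (i j : Fin 4) : ContDiffAt ℝ ∞ (fun x => (gm x)⁻¹ i j) 0 := by
  have hdet : ContDiff ℝ ∞ (fun x => (gm x).det) := by
    simp only [Matrix.det_apply]
    refine ContDiff.sum fun σ _ => ?_
    refine ContDiff.const_smul _ ?_
    exact contDiff_prod fun k _ => contDiff_gm _ _
  have hadj : ContDiff ℝ ∞ (fun x => (gm x).adjugate i j) := by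
    simp only [Matrix.adjugate_apply, Matrix.det_apply]
    refine ContDiff.sum fun σ _ => ?_
    refine ContDiff.const_smul _ ?_
    refine contDiff_prod fun k _ => ?_
    simp only [Matrix.updateRow_apply]
    split_ifs
    · exact contDiff_const
    · exact contDiff_gm _ _
  have h0 : (gm 0).det ≠ 0 := by rw [gm_zero]; simp
  have : (fun x => (gm x)⁻¹ i j) = fun x => ((gm x).det)⁻¹ * (gm x).adjugate i j := by
    funext x
    rw [Matrix.inv_def, Ring.inverse_eq_inv', Matrix.smul_apply, smul_eq_mul]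
  rw [this]
  exact (hdet.contDiffAt.inv h0).mul hadj.contDiffAt

lemma contDiffAt_chris (l i j : Fin 4) : ContDiffAt ℝ ∞ (christoffel gm l i j) 0 := by
  have : christoffel gm l i j = fun x => (1 / 2) * ∑ m, (gm x)⁻¹ l m * ∑ c, dco i j m c * x c := by
    funext x; exact chris_eq l i j x
  rw [this]
  refine contDiffAt_const.mul ?_
  refine ContDiffAt.sum fun m _ => ?_
  refine (contDiffAt_ginv l m).mul ?_
  fun_prop

lemma chris_zero (l i j : Fin 4) : christoffel gm l i j 0 = 0 := by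
  rw [chris_eq]; simp

lemma continuousAt_pd {f : Vec 4 → ℝ} (hf : ContDiffAt ℝ ∞ f 0) (i : Fin 4) :
    ContinuousAt (pd i f) 0 := by
  have h1 : ContDiffAt ℝ 0 (fderiv ℝ f) 0 := hf.fderiv_right (by simp)
  have h2 : ContinuousAt (fderiv ℝ f) 0 := h1.continuousAt
  exact h2.clm_apply continuousAt_const

lemma pd_chris_zero (k l i j : Fin 4) :
    pd k (christoffel gm l i j) 0 = (1 / 2) * dco i j l k := by
  have h : HasFDerivAt (christoffel gm l i j)
      ((1 / 2 : ℝ) • ∑ m : Fin 4, ((gm 0)⁻¹ l m • (∑ c : Fin 4, dco i j m c •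
        ContinuousLinearMap.proj (R := ℝ) (φ := fun _ => ℝ) c)
        + (∑ c, dco i j m c * (0 : Vec 4) c) • fderiv ℝ (fun x => (gm x)⁻¹ l m) 0)) 0 := by
    have : christoffel gm l i j =
        fun x => (1 / 2) * ∑ m, (gm x)⁻¹ l m * ∑ c, dco i j m c * x c := by
      funext x; exact chris_eq l i j x
    rw [this]
    refine HasFDerivAt.const_mul ?_ _
    refine HasFDerivAt.fun_sum fun m _ => ?_
    have hd : DifferentiableAt ℝ (fun x => (gm x)⁻¹ l m) 0 :=
      (contDiffAt_ginv l m).differentiableAt (by simp)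
    exact hd.hasFDerivAt.mul (hasFDerivAt_lin _ _)
  unfold pd
  rw [h.fderiv, gm_zero]
  simp [Matrix.one_apply, Pi.single_apply]

lemma riem_zero (l k i j : Fin 4) : riem gm l k i j 0 = op i j l k := by
  unfold riem
  simp only [pd_chris_zero, chris_zero, mul_zero, sub_zero, Finset.sum_const_zero, add_zero]
  unfold dco
  have e1 := op_bianchi i j k l
  have e2 := op_bianchi i j l k
  have s := op_symm1
  have s2 := op_symm2
  have s3 := op_symm3
  linarith [s i j k l, s i j l k, s i k j l, s i l j k, s j k i l, s j l i k, s2 i j k l, s2 i k j l, s2 i l j k,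
    s2 j k i l, s2 j l i k, s3 i j k l, s3 i k j l, s3 i l j k, s3 i j l k, s3 j k i l, s3 k l i j, s3 k i l j,
    s2 k i l j, s2 l i k j, s k i j l, s l i j k, s k j l i, s l j k i, s2 k j l i, s2 k j i l, s2 l j i k]

lemma continuousAt_riem (l k i j : Fin 4) : ContinuousAt (riem gm l k i j) 0 := by
  unfold riem
  have hc := fun l i j => (contDiffAt_chris l i j).continuousAt
  have hp := fun k l i j => continuousAt_pd (contDiffAt_chris l i j) k
  refine ContinuousAt.add (ContinuousAt.sub (hp _ _ _ _) (hp _ _ _ _)) ?_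
  refine tendsto_finsetSum _ fun m _ => ?_
  exact ((hc _ _ _).mul (hc _ _ _)).sub ((hc _ _ _).mul (hc _ _ _))

/-! ### The form `g(Ric_L T, T)` for symmetric `3`-tensors in coordinates -/

lemma sum_fin3 (G : (Fin 3 → Fin 4) → ℝ) :
    ∑ a : Fin 3 → Fin 4, G a = ∑ p, ∑ q, ∑ r, G ![p, q, r] := by
  rw [← (Fin.consEquiv (fun _ : Fin 3 => Fin 4)).sum_comp, Fintype.sum_prod_type]
  refine Finset.sum_congr rfl fun p _ => ?_
  rw [← (Fin.consEquiv (fun _ : Fin 2 => Fin 4)).sum_comp, Fintype.sum_prod_type]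
  refine Finset.sum_congr rfl fun q _ => ?_
  rw [← (Fin.consEquiv (fun _ : Fin 1 => Fin 4)).sum_comp, Fintype.sum_prod_type]
  refine Finset.sum_congr rfl fun r _ => ?_
  rw [Fintype.sum_unique]
  congr 1

lemma frame_eq (e : Fin 4 → Vec 4) (p q r : Fin 4) :
    (fun i : Fin 3 => e ((![p, q, r] : Fin 3 → Fin 4) i)) = ![e p, e q, e r] := by
  ext i; fin_cases i <;> rfl

lemma upd0 (X Y Z W : Vec 4) : Function.update (![X, Y, Z] : Fin 3 → Vec 4) 0 W = ![W, Y, Z] := by
  ext i; fin_cases i <;> simp [Function.update]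
lemma upd1 (X Y Z W : Vec 4) : Function.update (![X, Y, Z] : Fin 3 → Vec 4) 1 W = ![X, W, Z] := by
  ext i; fin_cases i <;> simp [Function.update]
lemma upd2 (X Y Z W : Vec 4) : Function.update (![X, Y, Z] : Fin 3 → Vec 4) 2 W = ![X, Y, W] := by
  ext i; fin_cases i <;> simp [Function.update]

lemma symm01 {T : Tensor 4 3} (hT : IsSymmTensor T) (X Y Z : Vec 4) :
    T ![Y, X, Z] = T ![X, Y, Z] := by
  have h := hT (Equiv.swap 0 1) ![X, Y, Z]
  rw [← h]
  congr 1
  ext i; fin_cases i <;> simp [Equiv.swap_apply_def]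
lemma symm12 {T : Tensor 4 3} (hT : IsSymmTensor T) (X Y Z : Vec 4) :
    T ![X, Z, Y] = T ![X, Y, Z] := by
  have h := hT (Equiv.swap 1 2) ![X, Y, Z]
  rw [← h]
  congr 1
  ext i; fin_cases i <;> simp [Equiv.swap_apply_def]

/-- the two basic contractions -/
noncomputable def sD (g : MetricField 4) (x : Vec 4) (e : Fin 4 → Vec 4) (T : Tensor 4 3) : ℝ :=
  ∑ p, ∑ q, ∑ r, ∑ a, T ![curv g x (e a) (e p) (e a), e q, e r] * T ![e p, e q, e r]
noncomputable def sC (g : MetricField 4) (x : Vec 4) (e : Fin 4 → Vec 4) (T : Tensor 4 3) : ℝ :=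
  ∑ p, ∑ q, ∑ r, ∑ a, T ![e a, curv g x (e a) (e p) (e q), e r] * T ![e p, e q, e r]

lemma ricL3 (g : MetricField 4) (x : Vec 4) (e : Fin 4 → Vec 4) (T : Tensor 4 3) (X Y Z : Vec 4) :
    ricL g x e T ![X, Y, Z] = - ∑ a,
      ((T ![curv g x (e a) X (e a), Y, Z] + T ![e a, curv g x (e a) X Y, Z]
          + T ![e a, Y, curv g x (e a) X Z])
      + (T ![curv g x (e a) Y X, e a, Z] + T ![X, curv g x (e a) Y (e a), Z]
          + T ![X, e a, curv g x (e a) Y Z])
      + (T ![curv g x (e a) Z X, Y, e a] + T ![X, curv g x (e a) Z Y, e a]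
          + T ![X, Y, curv g x (e a) Z (e a)])) := by
  unfold ricL curvAct
  simp only [Fin.sum_univ_three, upd0, upd1, upd2, Matrix.cons_val_zero, Matrix.cons_val_one,
    Matrix.cons_val_two, Matrix.head_cons, Matrix.tail_cons]
  rw [← Finset.sum_neg_distrib, ← Finset.sum_add_distrib, ← Finset.sum_add_distrib]
  refine Finset.sum_congr rfl fun a _ => ?_
  ring

lemma ricLForm3 (g : MetricField 4) (x : Vec 4) (e : Fin 4 → Vec 4) (T : Tensor 4 3)
    (hT : IsSymmTensor T) :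
    ricLForm g x e T = - 3 * sD g x e T - 6 * sC g x e T := by
  have s01 := symm01 hT
  have s12 := symm12 hT
  unfold ricLForm
  rw [sum_fin3]
  simp only [frame_eq, ricL3]
  -- the nine sums
  have split : ∀ p q r : Fin 4,
      (- ∑ a, ((T ![curv g x (e a) (e p) (e a), e q, e r] + T ![e a, curv g x (e a) (e p) (e q), e r]
          + T ![e a, e q, curv g x (e a) (e p) (e r)])
      + (T ![curv g x (e a) (e q) (e p), e a, e r] + T ![e p, curv g x (e a) (e q) (e a), e r]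
          + T ![e p, e a, curv g x (e a) (e q) (e r)])
      + (T ![curv g x (e a) (e r) (e p), e q, e a] + T ![e p, curv g x (e a) (e r) (e q), e a]
          + T ![e p, e q, curv g x (e a) (e r) (e a)]))) * T ![e p, e q, e r]
      = - ((∑ a, T ![curv g x (e a) (e p) (e a), e q, e r] * T ![e p, e q, e r])
        + (∑ a, T ![e a, curv g x (e a) (e p) (e q), e r] * T ![e p, e q, e r])
        + (∑ a, T ![e a, curv g x (e a) (e p) (e r), e q] * T ![e p, e r, e q])
        + (∑ a, T ![e a, curv g x (e a) (e q) (e p), e r] * T ![e q, e p, e r])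
        + (∑ a, T ![curv g x (e a) (e q) (e a), e p, e r] * T ![e q, e p, e r])
        + (∑ a, T ![e a, curv g x (e a) (e q) (e r), e p] * T ![e q, e r, e p])
        + (∑ a, T ![e a, curv g x (e a) (e r) (e p), e q] * T ![e r, e p, e q])
        + (∑ a, T ![e a, curv g x (e a) (e r) (e q), e p] * T ![e r, e q, e p])
        + (∑ a, T ![curv g x (e a) (e r) (e a), e p, e q] * T ![e r, e p, e q])) := by
    intro p q r
    simp only [← Finset.sum_add_distrib, ← Finset.sum_neg_distrib, Finset.sum_mul]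
    refine Finset.sum_congr rfl fun a _ => ?_
    have t1 : T ![e p, e r, e q] = T ![e p, e q, e r] := s12 _ _ _
    have t2 : T ![e q, e p, e r] = T ![e p, e q, e r] := s01 _ _ _
    have t3 : T ![e q, e r, e p] = T ![e p, e q, e r] := by rw [s12, s01]
    have t4 : T ![e r, e p, e q] = T ![e p, e q, e r] := by rw [s01, s12]
    have t5 : T ![e r, e q, e p] = T ![e p, e q, e r] := by rw [s01, s12, s01]
    rw [t1, t2, t3, t4, t5]
    have u1 : T ![e a, e q, curv g x (e a) (e p) (e r)] = T ![e a, curv g x (e a) (e p) (e r), e q] :=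
      s12 _ _ _
    have u2 : T ![curv g x (e a) (e q) (e p), e a, e r] = T ![e a, curv g x (e a) (e q) (e p), e r] :=
      s01 _ _ _
    have u3 : T ![e p, curv g x (e a) (e q) (e a), e r] = T ![curv g x (e a) (e q) (e a), e p, e r] :=
      s01 _ _ _
    have u4 : T ![e p, e a, curv g x (e a) (e q) (e r)] = T ![e a, curv g x (e a) (e q) (e r), e p] := by
      rw [s01, s12]
    have u5 : T ![curv g x (e a) (e r) (e p), e q, e a] = T ![e a, curv g x (e a) (e r) (e p), e q] := by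
      rw [s12, s01]
    have u6 : T ![e p, curv g x (e a) (e r) (e q), e a] = T ![e a, curv g x (e a) (e r) (e q), e p] := by
      rw [s12, s01, s12]
    have u7 : T ![e p, e q, curv g x (e a) (e r) (e a)] = T ![curv g x (e a) (e r) (e a), e p, e q] := by
      rw [s12, s01]
    rw [u1, u2, u3, u4, u5, u6, u7]
    ring
  simp only [split]
  simp only [Finset.sum_neg_distrib, Finset.sum_add_distrib]
  -- name each of the sums
  have a1 : ∑ p, ∑ q, ∑ r, ∑ a, T ![e a, curv g x (e a) (e p) (e r), e q] * T ![e p, e r, e q]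
      = sC g x e T := by
    unfold sC
    refine Finset.sum_congr rfl fun p _ => ?_
    rw [Finset.sum_comm]
  have a2 : ∑ p, ∑ q, ∑ r, ∑ a, T ![e a, curv g x (e a) (e q) (e p), e r] * T ![e q, e p, e r]
      = sC g x e T := by
    unfold sC
    rw [Finset.sum_comm]
  have a3 : ∑ p, ∑ q, ∑ r, ∑ a, T ![curv g x (e a) (e q) (e a), e p, e r] * T ![e q, e p, e r]
      = sD g x e T := by
    unfold sD
    rw [Finset.sum_comm]
  have a4 : ∑ p, ∑ q, ∑ r, ∑ a, T ![e a, curv g x (e a) (e q) (e r), e p] * T ![e q, e r, e p]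
      = sC g x e T := by
    unfold sC
    rw [Finset.sum_comm]
    refine Finset.sum_congr rfl fun q _ => ?_
    rw [Finset.sum_comm]
  have a5 : ∑ p, ∑ q, ∑ r, ∑ a, T ![e a, curv g x (e a) (e r) (e p), e q] * T ![e r, e p, e q]
      = sC g x e T := by
    unfold sC
    exact (Finset.sum_congr rfl fun p _ => Finset.sum_comm).trans Finset.sum_comm
  have a6 : ∑ p, ∑ q, ∑ r, ∑ a, T ![e a, curv g x (e a) (e r) (e q), e p] * T ![e r, e q, e p]
      = sC g x e T := by
    unfold sC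
    exact ((Finset.sum_congr rfl fun p _ => Finset.sum_comm).trans Finset.sum_comm).trans
      (Finset.sum_congr rfl fun p _ => Finset.sum_comm)
  have a7 : ∑ p, ∑ q, ∑ r, ∑ a, T ![curv g x (e a) (e r) (e a), e p, e q] * T ![e r, e p, e q]
      = sD g x e T := by
    unfold sD
    exact (Finset.sum_congr rfl fun p _ => Finset.sum_comm).trans Finset.sum_comm
  rw [a1, a2, a3, a4, a5, a6, a7]
  have d0 : ∑ p, ∑ q, ∑ r, ∑ a, T ![curv g x (e a) (e p) (e a), e q, e r] * T ![e p, e q, e r]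
      = sD g x e T := rfl
  have c0 : ∑ p, ∑ q, ∑ r, ∑ a, T ![e a, curv g x (e a) (e p) (e q), e r] * T ![e p, e q, e r]
      = sC g x e T := rfl
  rw [d0, c0]
  ring

/-! frames -/
lemma frame_inv (g : MetricField 4) (x : Vec 4) (e : Fin 4 → Vec 4) (he : IsOrthonormalAt g x e)
    (i j : Fin 4) : ∑ a, e a i * e a j = (g x)⁻¹ i j := by
  have h1 : (Matrix.of e) * (g x * (Matrix.of e)ᵀ) = 1 := by
    ext a b
    have := he a b
    rw [Matrix.one_apply, ← this]
    simp only [Matrix.mul_apply, dotProduct, Matrix.mulVec, Matrix.of_apply, Matrix.transpose_apply]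
  have h2 : (g x * (Matrix.of e)ᵀ) * (Matrix.of e) = 1 := mul_eq_one_comm.mp h1
  rw [Matrix.mul_assoc] at h2
  rw [Matrix.inv_eq_right_inv h2]
  simp [Matrix.mul_apply]

/-- coordinate vector -/
noncomputable def dl (i : Fin 4) : Vec 4 := Pi.single i 1

lemma lin_expand {f : Vec 4 → ℝ} (hf : IsLinearMap ℝ f) (X : Vec 4) :
    f X = ∑ i, X i * f (dl i) := by
  have := LinearMap.pi_apply_eq_sum_univ (hf.mk' f) X
  simp only [IsLinearMap.mk'_apply, smul_eq_mul] at this
  rw [this]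
  refine Finset.sum_congr rfl fun i _ => ?_
  congr 2
  ext j
  simp [dl, Pi.single_apply, eq_comm]

lemma trace_eq {h : Fin 4 → Fin 4 → ℝ} {e : Fin 4 → Vec 4}
    (he : ∀ i j, ∑ a, e a i * e a j = h i j) {B : Vec 4 → Vec 4 → ℝ}
    (h1 : ∀ Y, IsLinearMap ℝ (fun X => B X Y)) (h2 : ∀ X, IsLinearMap ℝ (fun Y => B X Y)) :
    ∑ a, B (e a) (e a) = ∑ i, ∑ j, h i j * B (dl i) (dl j) := by
  have h3 : ∀ a, B (e a) (e a) = ∑ i, ∑ j, e a i * e a j * B (dl i) (dl j) := by
    intro a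
    rw [lin_expand (h1 (e a)) (e a)]
    refine Finset.sum_congr rfl fun i _ => ?_
    rw [lin_expand (h2 (dl i)) (e a), Finset.mul_sum]
    refine Finset.sum_congr rfl fun j _ => ?_
    ring
  simp only [h3]
  rw [Finset.sum_comm]
  refine Finset.sum_congr rfl fun i _ => ?_
  rw [Finset.sum_comm]
  refine Finset.sum_congr rfl fun j _ => ?_
  rw [← he, Finset.sum_mul]

lemma T_lin0 (T : Tensor 4 3) (Y Z : Vec 4) : IsLinearMap ℝ (fun X => T ![X, Y, Z]) := by
  constructor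
  · intro X X'
    have := T.map_update_add ![0, Y, Z] 0 X X'
    simpa only [upd0] using this
  · intro c X
    have := T.map_update_smul ![0, Y, Z] 0 c X
    simpa only [upd0] using this
lemma T_lin1 (T : Tensor 4 3) (X Z : Vec 4) : IsLinearMap ℝ (fun Y => T ![X, Y, Z]) := by
  constructor
  · intro Y Y'
    have := T.map_update_add ![X, 0, Z] 1 Y Y'
    simpa only [upd1] using this
  · intro c Y
    have := T.map_update_smul ![X, 0, Z] 1 c Y
    simpa only [upd1] using this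
lemma T_lin2 (T : Tensor 4 3) (X Y : Vec 4) : IsLinearMap ℝ (fun Z => T ![X, Y, Z]) := by
  constructor
  · intro Z Z'
    have := T.map_update_add ![X, Y, 0] 2 Z Z'
    simpa only [upd2] using this
  · intro c Z
    have := T.map_update_smul ![X, Y, 0] 2 c Z
    simpa only [upd2] using this

lemma curv_lin0 (g : MetricField 4) (x : Vec 4) (Y Z : Vec 4) :
    IsLinearMap ℝ (fun X => curv g x X Y Z) := by
  constructor
  · intro X X'
    ext l
    simp only [curv, Pi.add_apply, add_mul, Finset.sum_add_distrib]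
  · intro c X
    ext l
    simp only [curv, Pi.smul_apply, smul_eq_mul, Finset.mul_sum, mul_assoc]
lemma curv_lin1 (g : MetricField 4) (x : Vec 4) (X Z : Vec 4) :
    IsLinearMap ℝ (fun Y => curv g x X Y Z) := by
  constructor
  · intro Y Y'
    ext l
    simp only [curv, Pi.add_apply, mul_add, add_mul, Finset.sum_add_distrib]
  · intro c Y
    ext l
    simp only [curv, Pi.smul_apply, smul_eq_mul, Finset.mul_sum]
    refine Finset.sum_congr rfl fun i _ => Finset.sum_congr rfl fun j _ =>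
      Finset.sum_congr rfl fun k _ => ?_
    ring
lemma curv_lin2 (g : MetricField 4) (x : Vec 4) (X Y : Vec 4) :
    IsLinearMap ℝ (fun Z => curv g x X Y Z) := by
  constructor
  · intro Z Z'
    ext l
    simp only [curv, Pi.add_apply, mul_add, add_mul, Finset.sum_add_distrib]
  · intro c Z
    ext l
    simp only [curv, Pi.smul_apply, smul_eq_mul, Finset.mul_sum]
    refine Finset.sum_congr rfl fun i _ => Finset.sum_congr rfl fun j _ =>
      Finset.sum_congr rfl fun k _ => ?_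
    ring

lemma curv_dl (g : MetricField 4) (x : Vec 4) (i j k : Fin 4) :
    curv g x (dl i) (dl j) (dl k) = fun l => riem g l k i j x := by
  ext l
  simp [curv, dl, Pi.single_apply]

lemma lin_comp {f : Vec 4 → ℝ} {L : Vec 4 → Vec 4} (hf : IsLinearMap ℝ f) (hL : IsLinearMap ℝ L) :
    IsLinearMap ℝ (fun X => f (L X)) :=
  ⟨fun X Y => by rw [hL.map_add, hf.map_add], fun c X => by rw [hL.map_smul, hf.map_smul]⟩

lemma lin_mul_left {f : Vec 4 → ℝ} (c : ℝ) (hf : IsLinearMap ℝ f) :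
    IsLinearMap ℝ (fun X => c * f X) :=
  ⟨fun X Y => by rw [hf.map_add]; ring, fun d X => by rw [hf.map_smul]; simp only [smul_eq_mul]; ring⟩

lemma lin_mul_right {f : Vec 4 → ℝ} (c : ℝ) (hf : IsLinearMap ℝ f) :
    IsLinearMap ℝ (fun X => f X * c) :=
  ⟨fun X Y => by rw [hf.map_add]; ring, fun d X => by rw [hf.map_smul]; simp only [smul_eq_mul]; ring⟩

lemma lin_sum {ι : Type*} {s : Finset ι} {f : ι → Vec 4 → ℝ} (hf : ∀ i, IsLinearMap ℝ (f i)) :
    IsLinearMap ℝ (fun X => ∑ i ∈ s, f i X) :=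
  ⟨fun X Y => by rw [← Finset.sum_add_distrib]; exact Finset.sum_congr rfl fun i _ => (hf i).map_add X Y,
   fun c X => by
    rw [Finset.smul_sum]; exact Finset.sum_congr rfl fun i _ => (hf i).map_smul c X⟩

/-- coordinate form of `sD`. -/
noncomputable def cD (h : Fin 4 → Fin 4 → ℝ) (R : Fin 4 → Fin 4 → Fin 4 → Fin 4 → ℝ)
    (t : Fin 4 → Fin 4 → Fin 4 → ℝ) : ℝ :=
  ∑ p, ∑ p', h p p' * ∑ q, ∑ q', h q q' * ∑ r, ∑ r', h r r' * ∑ i, ∑ k, h i k *
    ((∑ l, R l k i p * t l q r) * t p' q' r')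

/-- coordinate form of `sC`. -/
noncomputable def cC (h : Fin 4 → Fin 4 → ℝ) (R : Fin 4 → Fin 4 → Fin 4 → Fin 4 → ℝ)
    (t : Fin 4 → Fin 4 → Fin 4 → ℝ) : ℝ :=
  ∑ p, ∑ p', h p p' * ∑ q, ∑ q', h q q' * ∑ r, ∑ r', h r r' * ∑ i, ∑ k, h i k *
    ((∑ l, R l q i p * t k l r) * t p' q' r')

lemma sD_eq (g : MetricField 4) (x : Vec 4) (e : Fin 4 → Vec 4) (he : IsOrthonormalAt g x e)
    (T : Tensor 4 3) :
    sD g x e T = cD (fun i j => (g x)⁻¹ i j) (fun l k i j => riem g l k i j x)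
      (fun p q r => T ![dl p, dl q, dl r]) := by
  have hh := frame_inv g x e he
  unfold sD cD
  have hc0 := curv_lin0 g x
  have hc1 := curv_lin1 g x
  have hc2 := curv_lin2 g x
  have t0 := T_lin0 T
  have t1 := T_lin1 T
  have t2 := T_lin2 T
  have step1 := trace_eq hh (B := fun X X' => ∑ q, ∑ r, ∑ a,
    T ![curv g x (e a) X (e a), e q, e r] * T ![X', e q, e r])
    (fun Y => lin_sum fun q => lin_sum fun r => lin_sum fun a =>
      lin_mul_right _ (lin_comp (t0 _ _) (hc1 _ _)))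
    (fun X => lin_sum fun q => lin_sum fun r => lin_sum fun a => lin_mul_left _ (t0 _ _))
  rw [step1]
  refine Finset.sum_congr rfl fun p _ => Finset.sum_congr rfl fun p' _ => ?_
  congr 1
  have step2 := trace_eq hh (B := fun X X' => ∑ r, ∑ a,
    T ![curv g x (e a) (dl p) (e a), X, e r] * T ![dl p', X', e r])
    (fun Y => lin_sum fun r => lin_sum fun a => lin_mul_right _ (t1 _ _))
    (fun X => lin_sum fun r => lin_sum fun a => lin_mul_left _ (t1 _ _))
  rw [step2]
  refine Finset.sum_congr rfl fun q _ => Finset.sum_congr rfl fun q' _ => ?_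
  congr 1
  have step3 := trace_eq hh (B := fun X X' => ∑ a,
    T ![curv g x (e a) (dl p) (e a), dl q, X] * T ![dl p', dl q', X'])
    (fun Y => lin_sum fun a => lin_mul_right _ (t2 _ _))
    (fun X => lin_sum fun a => lin_mul_left _ (t2 _ _))
  rw [step3]
  refine Finset.sum_congr rfl fun r _ => Finset.sum_congr rfl fun r' _ => ?_
  congr 1
  have step4 := trace_eq hh (B := fun X X' =>
    T ![curv g x X (dl p) X', dl q, dl r] * T ![dl p', dl q', dl r'])
    (fun Y => lin_mul_right _ (lin_comp (t0 _ _) (hc0 _ _)))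
    (fun X => lin_mul_right _ (lin_comp (t0 _ _) (hc2 _ _)))
  rw [step4]
  refine Finset.sum_congr rfl fun i _ => Finset.sum_congr rfl fun k _ => ?_
  congr 2
  rw [curv_dl, lin_expand (t0 _ _)]

lemma sC_eq (g : MetricField 4) (x : Vec 4) (e : Fin 4 → Vec 4) (he : IsOrthonormalAt g x e)
    (T : Tensor 4 3) :
    sC g x e T = cC (fun i j => (g x)⁻¹ i j) (fun l k i j => riem g l k i j x)
      (fun p q r => T ![dl p, dl q, dl r]) := by
  have hh := frame_inv g x e he
  unfold sC cC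
  have hc0 := curv_lin0 g x
  have hc1 := curv_lin1 g x
  have hc2 := curv_lin2 g x
  have t0 := T_lin0 T
  have t1 := T_lin1 T
  have t2 := T_lin2 T
  have step1 := trace_eq hh (B := fun X X' => ∑ q, ∑ r, ∑ a,
    T ![e a, curv g x (e a) X (e q), e r] * T ![X', e q, e r])
    (fun Y => lin_sum fun q => lin_sum fun r => lin_sum fun a =>
      lin_mul_right _ (lin_comp (t1 _ _) (hc1 _ _)))
    (fun X => lin_sum fun q => lin_sum fun r => lin_sum fun a => lin_mul_left _ (t0 _ _))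
  rw [step1]
  refine Finset.sum_congr rfl fun p _ => Finset.sum_congr rfl fun p' _ => ?_
  congr 1
  have step2 := trace_eq hh (B := fun X X' => ∑ r, ∑ a,
    T ![e a, curv g x (e a) (dl p) X, e r] * T ![dl p', X', e r])
    (fun Y => lin_sum fun r => lin_sum fun a => lin_mul_right _ (lin_comp (t1 _ _) (hc2 _ _)))
    (fun X => lin_sum fun r => lin_sum fun a => lin_mul_left _ (t1 _ _))
  rw [step2]
  refine Finset.sum_congr rfl fun q _ => Finset.sum_congr rfl fun q' _ => ?_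
  congr 1
  have step3 := trace_eq hh (B := fun X X' => ∑ a,
    T ![e a, curv g x (e a) (dl p) (dl q), X] * T ![dl p', dl q', X'])
    (fun Y => lin_sum fun a => lin_mul_right _ (t2 _ _))
    (fun X => lin_sum fun a => lin_mul_left _ (t2 _ _))
  rw [step3]
  refine Finset.sum_congr rfl fun r _ => Finset.sum_congr rfl fun r' _ => ?_
  congr 1
  have step4 := trace_eq hh (B := fun X X' =>
    T ![X', curv g x X (dl p) (dl q), dl r] * T ![dl p', dl q', dl r'])
    (fun Y => lin_mul_right _ (lin_comp (t1 _ _) (hc0 _ _)))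
    (fun X => lin_mul_right _ (t0 _ _))
  rw [step4]
  refine Finset.sum_congr rfl fun i _ => Finset.sum_congr rfl fun k _ => ?_
  congr 2
  rw [curv_dl, lin_expand (t1 _ _)]

/-! ### Positivity at the origin -/

lemma cD_zero (t : Fin 4 → Fin 4 → Fin 4 → ℝ) :
    cD (fun i j => (1 : Matrix (Fin 4) (Fin 4) ℝ) i j) (fun l k i j => op i j l k) t
      = ∑ p, ∑ q, ∑ r, (∑ l, (∑ i, op i p l i) * t l q r) * t p q r := by
  unfold cD
  simp only [Matrix.one_apply, ite_mul, one_mul, zero_mul, Finset.sum_ite_eq, Finset.mem_univ,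
    if_true]
  refine Finset.sum_congr rfl fun p _ => Finset.sum_congr rfl fun q _ =>
    Finset.sum_congr rfl fun r _ => ?_
  rw [← Finset.sum_mul, Finset.sum_comm]
  simp only [Finset.sum_mul]

lemma cC_zero (t : Fin 4 → Fin 4 → Fin 4 → ℝ) :
    cC (fun i j => (1 : Matrix (Fin 4) (Fin 4) ℝ) i j) (fun l k i j => op i j l k) t
      = ∑ r, ∑ i, ∑ p, ∑ l, ∑ q, op i p l q * t i l r * t p q r := by
  unfold cC
  simp only [Matrix.one_apply, ite_mul, one_mul, zero_mul, Finset.sum_ite_eq, Finset.mem_univ,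
    if_true]
  simp only [Finset.sum_mul]
  calc ∑ p, ∑ q, ∑ r, ∑ i, ∑ l, op i p l q * t i l r * t p q r
      = ∑ p, ∑ r, ∑ q, ∑ i, ∑ l, op i p l q * t i l r * t p q r :=
        Finset.sum_congr rfl fun p _ => Finset.sum_comm
    _ = ∑ r, ∑ p, ∑ q, ∑ i, ∑ l, op i p l q * t i l r * t p q r := Finset.sum_comm
    _ = ∑ r, ∑ i, ∑ p, ∑ l, ∑ q, op i p l q * t i l r * t p q r := by
        refine Finset.sum_congr rfl fun r _ => ?_
        calc ∑ p, ∑ q, ∑ i, ∑ l, op i p l q * t i l r * t p q r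
            = ∑ p, ∑ i, ∑ q, ∑ l, op i p l q * t i l r * t p q r :=
              Finset.sum_congr rfl fun p _ => Finset.sum_comm
          _ = ∑ i, ∑ p, ∑ q, ∑ l, op i p l q * t i l r * t p q r := Finset.sum_comm
          _ = ∑ i, ∑ p, ∑ l, ∑ q, op i p l q * t i l r * t p q r :=
              Finset.sum_congr rfl fun i _ => Finset.sum_congr rfl fun p _ => Finset.sum_comm

lemma ricci_val : ∀ p l, ∑ i, opz i p l i = if p = l then -18 else 0 := by decide

lemma G_eq (s : Fin 4 → Fin 4 → ℝ) (hs : ∀ i j, s i j = s j i) :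
    ∑ i, ∑ p, ∑ l, ∑ q, op i p l q * s i l * s p q =
    (-12) * (s 0 0 * s 1 1) + (10) * (s 0 0 * s 2 2) + (38) * (s 0 0 * s 3 3) + (12) * (s 0 1 * s 0 1) + (56) * (s 0 1 * s 2 3) + (-10) * (s 0 2 * s 0 2) + (-100) * (s 0 2 * s 1 3) + (-38) * (s 0 3 * s 0 3) + (44) * (s 0 3 * s 1 2) + (38) * (s 1 1 * s 2 2) + (10) * (s 1 1 * s 3 3) + (-38) * (s 1 2 * s 1 2) + (-10) * (s 1 3 * s 1 3) + (-12) * (s 2 2 * s 3 3) + (12) * (s 2 3 * s 2 3) := by
  simp only [Fin.sum_univ_four]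
  simp [op, opz, w1, w2, w3, v1, v2, v3]
  rw [hs 1 0, hs 2 0, hs 3 0, hs 2 1, hs 3 1, hs 3 2]
  ring

lemma pos_form (t : Fin 4 → Fin 4 → Fin 4 → ℝ) (h1 : ∀ p q r, t p q r = t q p r)
    (h2 : ∀ p q r, t p q r = t p r q) :
    ∑ p, ∑ q, ∑ r, t p q r ^ 2 ≤
    -3 * cD (fun i j => (1 : Matrix (Fin 4) (Fin 4) ℝ) i j) (fun l k i j => op i j l k) t
    -6 * cC (fun i j => (1 : Matrix (Fin 4) (Fin 4) ℝ) i j) (fun l k i j => op i j l k) t := by
  rw [cD_zero, cC_zero]
  have hr : ∀ p l : Fin 4, ∑ i, op i p l i = if p = l then (-18 : ℝ) else 0 := by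
    intro p l
    have := ricci_val p l
    unfold op
    rw [← Int.cast_sum, this]
    split_ifs <;> simp
  simp only [hr, ite_mul, zero_mul, Finset.sum_ite_eq, Finset.mem_univ, if_true]
  have hG : ∀ r, ∑ i, ∑ p, ∑ l, ∑ q, op i p l q * t i l r * t p q r = _ :=
    fun r => G_eq (fun i j => t i j r) (fun i j => h1 i j r)
  simp only [hG]
  have key : -3 * (∑ p, ∑ q, ∑ r, -18 * t p q r * t p q r) - 6 * (∑ r : Fin 4, (
    (-12) * (t 0 0 r * t 1 1 r) + (10) * (t 0 0 r * t 2 2 r) + (38) * (t 0 0 r * t 3 3 r) + (12) * (t 0 1 r * t 0 1 r) + (56) * (t 0 1 r * t 2 3 r) + (-10) * (t 0 2 r * t 0 2 r) + (-100) * (t 0 2 r * t 1 3 r) + (-38) * (t 0 3 r * t 0 3 r) + (44) * (t 0 3 r * t 1 2 r) + (38) * (t 1 1 r * t 2 2 r) + (10) * (t 1 1 r * t 3 3 r) + (-38) * (t 1 2 r * t 1 2 r) + (-10) * (t 1 3 r * t 1 3 r) + (-12) * (t 2 2 r * t 3 3 r) + (12) * (t 2 3 r * t 2 3 r)))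
    - ∑ p, ∑ q, ∑ r, t p q r ^ 2 =
    ((53) * ((1) * t 0 0 0 + (36/53) * t 0 1 1 + (-30/53) * t 0 2 2 + (-114/53) * t 0 3 3)^2 +
 (3315/53) * ((1) * t 0 1 1 + (-1654/1105) * t 0 2 2 + (838/1105) * t 0 3 3 + (-2968/1105) * t 1 2 3)^2 +
 (68379/1105) * ((1) * t 0 2 2 + (15644/22793) * t 0 3 3 + (17876/22793) * t 1 2 3)^2 +
 (1747515/22793) * ((1) * t 0 3 3 + (-44/89) * t 1 2 3)^2 +
 (2310/89) * ((1) * t 1 2 3)^2 +
 (53) * ((1) * t 1 1 1 + (36/53) * t 0 0 1 + (-114/53) * t 1 2 2 + (-30/53) * t 1 3 3)^2 +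
 (3315/53) * ((1) * t 0 0 1 + (838/1105) * t 1 2 2 + (-1654/1105) * t 1 3 3 + (-2968/1105) * t 0 2 3)^2 +
 (116931/1105) * ((1) * t 1 2 2 + (15644/38977) * t 1 3 3 + (-1692/38977) * t 0 2 3)^2 +
 (1747515/38977) * ((1) * t 1 3 3 + (100/89) * t 0 2 3)^2 +
 (2310/89) * ((1) * t 0 2 3)^2 +
 (53) * ((1) * t 2 2 2 + (-30/53) * t 0 0 2 + (-114/53) * t 1 1 2 + (36/53) * t 2 3 3)^2 +
 (10707/53) * ((1) * t 0 0 2 + (-504/3569) * t 1 1 2 + (-1654/3569) * t 2 3 3 + (5300/3569) * t 0 1 3)^2 +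
 (491679/3569) * ((1) * t 1 1 2 + (40702/163893) * t 2 3 3 + (-106636/163893) * t 0 1 3)^2 +
 (582505/54631) * ((1) * t 2 3 3 + (-56/89) * t 0 1 3)^2 +
 (2310/89) * ((1) * t 0 1 3)^2 +
 (53) * ((1) * t 3 3 3 + (-114/53) * t 0 0 3 + (-30/53) * t 1 1 3 + (36/53) * t 2 2 3)^2 +
 (7515/53) * ((1) * t 0 0 3 + (-168/835) * t 1 1 3 + (838/2505) * t 2 2 3 + (-2332/2505) * t 0 1 2)^2 +
 (163893/835) * ((1) * t 1 1 3 + (-23402/54631) * t 2 2 3 + (76108/54631) * t 0 1 2)^2 +
 (582505/54631) * ((1) * t 2 2 3 + (-56/89) * t 0 1 2)^2 +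
 (2310/89) * ((1) * t 0 1 2)^2) := by
    simp only [Fin.sum_univ_four]
    have e001 : t 0 1 0 = t 0 0 1 := by rw [h2]
    have e001b : t 1 0 0 = t 0 0 1 := by rw [h1, h2]
    have e002 : t 0 2 0 = t 0 0 2 := by rw [h2]
    have e002b : t 2 0 0 = t 0 0 2 := by rw [h1, h2]
    have e003 : t 0 3 0 = t 0 0 3 := by rw [h2]
    have e003b : t 3 0 0 = t 0 0 3 := by rw [h1, h2]
    have e011 : t 1 0 1 = t 0 1 1 := by rw [h1]
    have e011b : t 1 1 0 = t 0 1 1 := by rw [h2, h1]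
    have e012 : t 0 2 1 = t 0 1 2 := by rw [h2]
    have e012b : t 1 0 2 = t 0 1 2 := by rw [h1]
    have e012c : t 1 2 0 = t 0 1 2 := by rw [h2, h1]
    have e012d : t 2 0 1 = t 0 1 2 := by rw [h1, h2]
    have e012e : t 2 1 0 = t 0 1 2 := by rw [h1, h2, h1]
    have e013 : t 0 3 1 = t 0 1 3 := by rw [h2]
    have e013b : t 1 0 3 = t 0 1 3 := by rw [h1]
    have e013c : t 1 3 0 = t 0 1 3 := by rw [h2, h1]
    have e013d : t 3 0 1 = t 0 1 3 := by rw [h1, h2]
    have e013e : t 3 1 0 = t 0 1 3 := by rw [h1, h2, h1]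
    have e022 : t 2 0 2 = t 0 2 2 := by rw [h1]
    have e022b : t 2 2 0 = t 0 2 2 := by rw [h2, h1]
    have e023 : t 0 3 2 = t 0 2 3 := by rw [h2]
    have e023b : t 2 0 3 = t 0 2 3 := by rw [h1]
    have e023c : t 2 3 0 = t 0 2 3 := by rw [h2, h1]
    have e023d : t 3 0 2 = t 0 2 3 := by rw [h1, h2]
    have e023e : t 3 2 0 = t 0 2 3 := by rw [h1, h2, h1]
    have e033 : t 3 0 3 = t 0 3 3 := by rw [h1]
    have e033b : t 3 3 0 = t 0 3 3 := by rw [h2, h1]
    have e112 : t 1 2 1 = t 1 1 2 := by rw [h2]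
    have e112b : t 2 1 1 = t 1 1 2 := by rw [h1, h2]
    have e113 : t 1 3 1 = t 1 1 3 := by rw [h2]
    have e113b : t 3 1 1 = t 1 1 3 := by rw [h1, h2]
    have e122 : t 2 1 2 = t 1 2 2 := by rw [h1]
    have e122b : t 2 2 1 = t 1 2 2 := by rw [h2, h1]
    have e123 : t 1 3 2 = t 1 2 3 := by rw [h2]
    have e123b : t 2 1 3 = t 1 2 3 := by rw [h1]
    have e123c : t 2 3 1 = t 1 2 3 := by rw [h2, h1]
    have e123d : t 3 1 2 = t 1 2 3 := by rw [h1, h2]
    have e123e : t 3 2 1 = t 1 2 3 := by rw [h1, h2, h1]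
    have e133 : t 3 1 3 = t 1 3 3 := by rw [h1]
    have e133b : t 3 3 1 = t 1 3 3 := by rw [h2, h1]
    have e223 : t 2 3 2 = t 2 2 3 := by rw [h2]
    have e223b : t 3 2 2 = t 2 2 3 := by rw [h1, h2]
    have e233 : t 3 2 3 = t 2 3 3 := by rw [h1]
    have e233b : t 3 3 2 = t 2 3 3 := by rw [h2, h1]
    simp only [e001, e001b, e002, e002b, e003, e003b, e011, e011b, e012, e012b, e012c, e012d,
      e012e, e013, e013b, e013c, e013d, e013e, e022, e022b, e023, e023b, e023c, e023d, e023e, e033,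
      e033b, e112, e112b, e113, e113b, e122, e122b, e123, e123b, e123c, e123d, e123e, e133, e133b,
      e223, e223b, e233, e233b]
    ring
  have hpos : 0 ≤ ((53) * ((1) * t 0 0 0 + (36/53) * t 0 1 1 + (-30/53) * t 0 2 2 + (-114/53) * t 0 3 3)^2 +
 (3315/53) * ((1) * t 0 1 1 + (-1654/1105) * t 0 2 2 + (838/1105) * t 0 3 3 + (-2968/1105) * t 1 2 3)^2 +
 (68379/1105) * ((1) * t 0 2 2 + (15644/22793) * t 0 3 3 + (17876/22793) * t 1 2 3)^2 +
 (1747515/22793) * ((1) * t 0 3 3 + (-44/89) * t 1 2 3)^2 +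
 (2310/89) * ((1) * t 1 2 3)^2 +
 (53) * ((1) * t 1 1 1 + (36/53) * t 0 0 1 + (-114/53) * t 1 2 2 + (-30/53) * t 1 3 3)^2 +
 (3315/53) * ((1) * t 0 0 1 + (838/1105) * t 1 2 2 + (-1654/1105) * t 1 3 3 + (-2968/1105) * t 0 2 3)^2 +
 (116931/1105) * ((1) * t 1 2 2 + (15644/38977) * t 1 3 3 + (-1692/38977) * t 0 2 3)^2 +
 (1747515/38977) * ((1) * t 1 3 3 + (100/89) * t 0 2 3)^2 +
 (2310/89) * ((1) * t 0 2 3)^2 +
 (53) * ((1) * t 2 2 2 + (-30/53) * t 0 0 2 + (-114/53) * t 1 1 2 + (36/53) * t 2 3 3)^2 +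
 (10707/53) * ((1) * t 0 0 2 + (-504/3569) * t 1 1 2 + (-1654/3569) * t 2 3 3 + (5300/3569) * t 0 1 3)^2 +
 (491679/3569) * ((1) * t 1 1 2 + (40702/163893) * t 2 3 3 + (-106636/163893) * t 0 1 3)^2 +
 (582505/54631) * ((1) * t 2 3 3 + (-56/89) * t 0 1 3)^2 +
 (2310/89) * ((1) * t 0 1 3)^2 +
 (53) * ((1) * t 3 3 3 + (-114/53) * t 0 0 3 + (-30/53) * t 1 1 3 + (36/53) * t 2 2 3)^2 +
 (7515/53) * ((1) * t 0 0 3 + (-168/835) * t 1 1 3 + (838/2505) * t 2 2 3 + (-2332/2505) * t 0 1 2)^2 +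
 (163893/835) * ((1) * t 1 1 3 + (-23402/54631) * t 2 2 3 + (76108/54631) * t 0 1 2)^2 +
 (582505/54631) * ((1) * t 2 2 3 + (-56/89) * t 0 1 2)^2 +
 (2310/89) * ((1) * t 0 1 2)^2) := by positivity
  rw [← key] at hpos
  linarith

/-! ### Positivity of the `Sym³` form near the origin -/

lemma continuous_cD : Continuous (fun z : (Fin 4 → Fin 4 → ℝ) × (Fin 4 → Fin 4 → Fin 4 → Fin 4 → ℝ) ×
    (Fin 4 → Fin 4 → Fin 4 → ℝ) => cD z.1 z.2.1 z.2.2) := by
  unfold cD
  fun_prop

lemma continuous_cC : Continuous (fun z : (Fin 4 → Fin 4 → ℝ) × (Fin 4 → Fin 4 → Fin 4 → Fin 4 → ℝ) ×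
    (Fin 4 → Fin 4 → Fin 4 → ℝ) => cC z.1 z.2.1 z.2.2) := by
  unfold cC
  fun_prop

lemma cD_scale (h : Fin 4 → Fin 4 → ℝ) (R : Fin 4 → Fin 4 → Fin 4 → Fin 4 → ℝ)
    (t : Fin 4 → Fin 4 → Fin 4 → ℝ) (c : ℝ) :
    cD h R (fun p q r => c * t p q r) = c ^ 2 * cD h R t := by
  unfold cD
  simp only [Finset.mul_sum, Finset.sum_mul]
  iterate 9 refine Finset.sum_congr rfl fun _ _ => ?_
  ring

lemma cC_scale (h : Fin 4 → Fin 4 → ℝ) (R : Fin 4 → Fin 4 → Fin 4 → Fin 4 → ℝ)
    (t : Fin 4 → Fin 4 → Fin 4 → ℝ) (c : ℝ) :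
    cC h R (fun p q r => c * t p q r) = c ^ 2 * cC h R t := by
  unfold cC
  simp only [Finset.mul_sum, Finset.sum_mul]
  iterate 9 refine Finset.sum_congr rfl fun _ _ => ?_
  ring

/-- The coordinate expression of `g(Ric_L T, T)` for `gm` and a symmetric `3`-tensor. -/
noncomputable def form (x : Vec 4) (t : Fin 4 → Fin 4 → Fin 4 → ℝ) : ℝ :=
  -3 * cD (fun i j => (gm x)⁻¹ i j) (fun l k i j => riem gm l k i j x) t
  -6 * cC (fun i j => (gm x)⁻¹ i j) (fun l k i j => riem gm l k i j x) t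

lemma form_scale (x : Vec 4) (t : Fin 4 → Fin 4 → Fin 4 → ℝ) (c : ℝ) :
    form x (fun p q r => c * t p q r) = c ^ 2 * form x t := by
  unfold form
  rw [cD_scale, cC_scale]; ring

/-- The unit sphere of symmetric `3`-tensors. -/
def sphere3 : Set (Fin 4 → Fin 4 → Fin 4 → ℝ) :=
  {t | ((∀ p q r, t p q r = t q p r) ∧ (∀ p q r, t p q r = t p r q)) ∧
    ∑ p, ∑ q, ∑ r, t p q r ^ 2 = 1}

lemma isCompact_sphere3 : IsCompact sphere3 := by
  have k1 : IsClosed {t : Fin 4 → Fin 4 → Fin 4 → ℝ | ∀ p q r, t p q r = t q p r} := by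
    have : {t : Fin 4 → Fin 4 → Fin 4 → ℝ | ∀ p q r, t p q r = t q p r}
        = ⋂ p, ⋂ q, ⋂ r, {t | t p q r = t q p r} := by ext t; simp
    rw [this]
    refine isClosed_iInter fun p => isClosed_iInter fun q => isClosed_iInter fun r => ?_
    exact isClosed_eq (by fun_prop) (by fun_prop)
  have k2 : IsClosed {t : Fin 4 → Fin 4 → Fin 4 → ℝ | ∀ p q r, t p q r = t p r q} := by
    have : {t : Fin 4 → Fin 4 → Fin 4 → ℝ | ∀ p q r, t p q r = t p r q}
        = ⋂ p, ⋂ q, ⋂ r, {t | t p q r = t p r q} := by ext t; simp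
    rw [this]
    refine isClosed_iInter fun p => isClosed_iInter fun q => isClosed_iInter fun r => ?_
    exact isClosed_eq (by fun_prop) (by fun_prop)
  have k3 : IsClosed {t : Fin 4 → Fin 4 → Fin 4 → ℝ | ∑ p, ∑ q, ∑ r, t p q r ^ 2 = 1} :=
    isClosed_eq (by fun_prop) (by fun_prop)
  refine Metric.isCompact_of_isClosed_isBounded ?_ ?_
  · exact (k1.inter k2).inter k3
  · refine (Metric.isBounded_closedBall (x := (0 : Fin 4 → Fin 4 → Fin 4 → ℝ)) (r := 1)).subset ?_
    rintro t ⟨_, ht⟩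
    rw [mem_closedBall_zero_iff]
    rw [pi_norm_le_iff_of_nonneg zero_le_one]
    intro p
    rw [pi_norm_le_iff_of_nonneg zero_le_one]
    intro q
    rw [pi_norm_le_iff_of_nonneg zero_le_one]
    intro r
    rw [Real.norm_eq_abs, ← sq_le_one_iff_abs_le_one, ← ht]
    calc t p q r ^ 2 ≤ ∑ r, t p q r ^ 2 :=
          Finset.single_le_sum (f := fun r => t p q r ^ 2) (fun _ _ => sq_nonneg _) (Finset.mem_univ r)
      _ ≤ ∑ q, ∑ r, t p q r ^ 2 :=
          Finset.single_le_sum (f := fun q => ∑ r, t p q r ^ 2)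
            (fun _ _ => Finset.sum_nonneg fun _ _ => sq_nonneg _) (Finset.mem_univ q)
      _ ≤ ∑ p, ∑ q, ∑ r, t p q r ^ 2 :=
          Finset.single_le_sum (f := fun p => ∑ q, ∑ r, t p q r ^ 2)
            (fun _ _ => Finset.sum_nonneg fun _ _ => Finset.sum_nonneg fun _ _ => sq_nonneg _)
            (Finset.mem_univ p)

lemma continuousAt_form_aux {H : Vec 4 → Fin 4 → Fin 4 → ℝ}
    {Rf : Vec 4 → Fin 4 → Fin 4 → Fin 4 → Fin 4 → ℝ}
    (hH : ContinuousAt H 0) (hR : ContinuousAt Rf 0) (t : Fin 4 → Fin 4 → Fin 4 → ℝ) :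
    ContinuousAt (fun z : Vec 4 × (Fin 4 → Fin 4 → Fin 4 → ℝ) =>
      -3 * cD (H z.1) (Rf z.1) z.2 - 6 * cC (H z.1) (Rf z.1) z.2) (0, t) := by
  have c1 : ContinuousAt (fun z : Vec 4 × (Fin 4 → Fin 4 → Fin 4 → ℝ) => z.1) (0, t) :=
    continuousAt_fst
  have c2 : ContinuousAt (fun z : Vec 4 × (Fin 4 → Fin 4 → Fin 4 → ℝ) => H z.1) (0, t) :=
    ContinuousAt.comp (f := fun z : Vec 4 × (Fin 4 → Fin 4 → Fin 4 → ℝ) => z.1) (g := H) hH c1
  have c3 : ContinuousAt (fun z : Vec 4 × (Fin 4 → Fin 4 → Fin 4 → ℝ) => Rf z.1) (0, t) :=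
    ContinuousAt.comp (f := fun z : Vec 4 × (Fin 4 → Fin 4 → Fin 4 → ℝ) => z.1) (g := Rf) hR c1
  have hmap : ContinuousAt (fun z : Vec 4 × (Fin 4 → Fin 4 → Fin 4 → ℝ) =>
      (H z.1, Rf z.1, z.2)) (0, t) := c2.prodMk (c3.prodMk continuousAt_snd)
  have d1 := ContinuousAt.comp (f := fun z : Vec 4 × (Fin 4 → Fin 4 → Fin 4 → ℝ) =>
      (H z.1, Rf z.1, z.2)) continuous_cD.continuousAt hmap
  have d2 := ContinuousAt.comp (f := fun z : Vec 4 × (Fin 4 → Fin 4 → Fin 4 → ℝ) =>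
      (H z.1, Rf z.1, z.2)) continuous_cC.continuousAt hmap
  exact (continuousAt_const.mul d1).sub (continuousAt_const.mul d2)

lemma eventually_pos : ∀ᶠ x in 𝓝 (0 : Vec 4), ∀ t ∈ sphere3, 0 < form x t := by
  refine isCompact_sphere3.eventually_forall_of_forall_eventually (P := fun x t => 0 < form x t) ?_
  intro t ht
  have hcont : ContinuousAt (fun z : Vec 4 × (Fin 4 → Fin 4 → Fin 4 → ℝ) => form z.1 z.2) (0, t) := by
    refine continuousAt_form_aux (H := fun x i j => (gm x)⁻¹ i j)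
      (Rf := fun x l k i j => riem gm l k i j x) ?_ ?_ t
    · exact continuousAt_pi.mpr fun i => continuousAt_pi.mpr fun j =>
        (contDiffAt_ginv i j).continuousAt
    · exact continuousAt_pi.mpr fun l => continuousAt_pi.mpr fun k => continuousAt_pi.mpr fun i =>
        continuousAt_pi.mpr fun j => continuousAt_riem l k i j
  have hpos : 0 < form 0 t := by
    have h1 := pos_form t ht.1.1 ht.1.2
    rw [ht.2] at h1
    have h2 : form 0 t = -3 * cD (fun i j => (1 : Matrix (Fin 4) (Fin 4) ℝ) i j)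
        (fun l k i j => op i j l k) t
        -6 * cC (fun i j => (1 : Matrix (Fin 4) (Fin 4) ℝ) i j) (fun l k i j => op i j l k) t := by
      unfold form
      simp only [riem_zero, gm_zero, inv_one]
    rw [h2]
    linarith
  exact hcont.eventually (lt_mem_nhds hpos)

/-! ### Positive definiteness of the metric near the origin -/

lemma gm_isHermitian (x : Vec 4) : (gm x).IsHermitian := by
  ext i j
  simp only [Matrix.conjTranspose_apply, star_trivial, gm_apply]
  congr 1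
  · simp [eq_comm]
  · congr 1
    rw [Finset.sum_comm]
    refine Finset.sum_congr rfl fun k _ => Finset.sum_congr rfl fun l _ => ?_
    rw [← op_symm3 i k j l]; ring

lemma eventually_posDef : ∀ᶠ x in 𝓝 (0 : Vec 4), (gm x).PosDef := by
  have hK : IsCompact {v : Vec 4 | ∑ i, v i ^ 2 = 1} := by
    refine Metric.isCompact_of_isClosed_isBounded ?_ ?_
    · exact isClosed_eq (by fun_prop) (by fun_prop)
    · refine (Metric.isBounded_closedBall (x := (0 : Vec 4)) (r := 1)).subset ?_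
      intro v hv
      rw [mem_closedBall_zero_iff, pi_norm_le_iff_of_nonneg zero_le_one]
      intro i
      rw [Real.norm_eq_abs, ← sq_le_one_iff_abs_le_one, ← (show ∑ i, v i ^ 2 = 1 from hv)]
      exact Finset.single_le_sum (f := fun i => v i ^ 2) (fun _ _ => sq_nonneg _) (Finset.mem_univ i)
  have hcont : Continuous (fun z : Vec 4 × Vec 4 => z.2 ⬝ᵥ (gm z.1 *ᵥ z.2)) := by
    simp only [dotProduct, Matrix.mulVec, gm_apply]
    fun_prop
  have hev : ∀ᶠ x in 𝓝 (0 : Vec 4), ∀ v ∈ {v : Vec 4 | ∑ i, v i ^ 2 = 1},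
      0 < v ⬝ᵥ (gm x *ᵥ v) := by
    refine hK.eventually_forall_of_forall_eventually (P := fun x v => 0 < v ⬝ᵥ (gm x *ᵥ v)) ?_
    intro v hv
    have hpos : 0 < v ⬝ᵥ (gm 0 *ᵥ v) := by
      rw [gm_zero, Matrix.one_mulVec]
      have : v ⬝ᵥ v = 1 := by
        rw [← (show ∑ i, v i ^ 2 = 1 from hv)]
        simp [dotProduct, sq]
      rw [this]; exact one_pos
    exact hcont.continuousAt.eventually (lt_mem_nhds hpos)
  filter_upwards [hev] with x hx
  refine Matrix.PosDef.of_dotProduct_mulVec_pos (gm_isHermitian x) ?_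
  intro v hv
  simp only [star_trivial]
  have hs : 0 < ∑ i, v i ^ 2 := by
    obtain ⟨i, hi⟩ := Function.ne_iff.mp hv
    exact lt_of_lt_of_le (pow_pos (abs_pos.mpr hi) 2 |>.trans_eq (sq_abs _))
      (Finset.single_le_sum (f := fun i => v i ^ 2) (fun _ _ => sq_nonneg _) (Finset.mem_univ i))
  set c := (Real.sqrt (∑ i, v i ^ 2))⁻¹ with hc
  have hcpos : 0 < c := inv_pos.mpr (Real.sqrt_pos.mpr hs)
  have hc2 : c ^ 2 * ∑ i, v i ^ 2 = 1 := by
    rw [hc, inv_pow, Real.sq_sqrt hs.le, inv_mul_cancel₀ hs.ne']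
  have h1 := hx (c • v) (by
    simp only [Pi.smul_apply, smul_eq_mul, mul_pow, ← Finset.mul_sum]
    exact hc2)
  rw [Matrix.mulVec_smul, dotProduct_smul, smul_dotProduct, smul_eq_mul, smul_eq_mul,
    ← mul_assoc] at h1
  exact (pos_iff_pos_of_mul_pos h1).mp (mul_pos hcpos hcpos)

/-! ### Failure for symmetric `2`-tensors at the origin -/

/-- The symmetric `2`-tensor `dx⁰ ⊙ dx¹ + dx² ⊙ dx³`. -/
def badTensor : Tensor 4 2 where
  toFun X := X 0 0 * X 1 1 + X 0 1 * X 1 0 + X 0 2 * X 1 3 + X 0 3 * X 1 2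
  map_update_add' X i Y Z := by
    fin_cases i <;> simp [Function.update] <;> ring
  map_update_smul' X i c Y := by
    fin_cases i <;> simp [Function.update] <;> ring

lemma badTensor_apply (X Y : Vec 4) :
    badTensor ![X, Y] = X 0 * Y 1 + X 1 * Y 0 + X 2 * Y 3 + X 3 * Y 2 := rfl

lemma badTensor_symm : IsSymmTensor badTensor := by
  intro σ X
  have : σ = 1 ∨ σ = Equiv.swap 0 1 := by
    revert σ; decide
  rcases this with rfl | rfl
  · rfl
  · change X (Equiv.swap (0 : Fin 2) 1 0) 0 * X (Equiv.swap (0 : Fin 2) 1 1) 1 +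
      X (Equiv.swap (0 : Fin 2) 1 0) 1 * X (Equiv.swap (0 : Fin 2) 1 1) 0 +
      X (Equiv.swap (0 : Fin 2) 1 0) 2 * X (Equiv.swap (0 : Fin 2) 1 1) 3 +
      X (Equiv.swap (0 : Fin 2) 1 0) 3 * X (Equiv.swap (0 : Fin 2) 1 1) 2 =
      X 0 0 * X 1 1 + X 0 1 * X 1 0 + X 0 2 * X 1 3 + X 0 3 * X 1 2
    rw [Equiv.swap_apply_left, Equiv.swap_apply_right]
    ring

lemma sum_fin2 (G : (Fin 2 → Fin 4) → ℝ) :
    ∑ a : Fin 2 → Fin 4, G a = ∑ p, ∑ q, G ![p, q] := by
  rw [← (Fin.consEquiv (fun _ : Fin 2 => Fin 4)).sum_comp, Fintype.sum_prod_type]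
  refine Finset.sum_congr rfl fun p _ => ?_
  rw [← (Fin.consEquiv (fun _ : Fin 1 => Fin 4)).sum_comp, Fintype.sum_prod_type]
  refine Finset.sum_congr rfl fun q _ => ?_
  rw [Fintype.sum_unique]
  congr 1

lemma upd0' (X Y W : Vec 4) : Function.update (![X, Y] : Fin 2 → Vec 4) 0 W = ![W, Y] := by
  ext i; fin_cases i <;> simp [Function.update]
lemma upd1' (X Y W : Vec 4) : Function.update (![X, Y] : Fin 2 → Vec 4) 1 W = ![X, W] := by
  ext i; fin_cases i <;> simp [Function.update]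

lemma frame_eq2 (e : Fin 4 → Vec 4) (p q : Fin 4) :
    (fun i : Fin 2 => e ((![p, q] : Fin 2 → Fin 4) i)) = ![e p, e q] := by
  ext i; fin_cases i <;> rfl

lemma ricL2 (g : MetricField 4) (x : Vec 4) (e : Fin 4 → Vec 4) (T : Tensor 4 2) (X Y : Vec 4) :
    ricL g x e T ![X, Y] = - ∑ a,
      ((T ![curv g x (e a) X (e a), Y] + T ![e a, curv g x (e a) X Y])
      + (T ![curv g x (e a) Y X, e a] + T ![X, curv g x (e a) Y (e a)])) := by
  unfold ricL curvAct
  simp only [Fin.sum_univ_two, upd0', upd1', Matrix.cons_val_zero, Matrix.cons_val_one]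
  rw [← Finset.sum_neg_distrib, ← Finset.sum_add_distrib]
  refine Finset.sum_congr rfl fun a _ => ?_
  ring

lemma curv_dl_zero (i j k : Fin 4) :
    curv gm 0 (dl i) (dl j) (dl k) = fun l => op i j l k := by
  rw [curv_dl]; funext l; exact riem_zero l k i j

lemma badTensor_neg : ricLForm gm 0 dl badTensor = -16 := by
  unfold ricLForm
  rw [sum_fin2]
  simp only [frame_eq2, ricL2, curv_dl_zero, badTensor_apply]
  simp only [Fin.sum_univ_four]
  simp [dl, op, opz, w1, w2, w3, v1, v2, v3]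
  norm_num

lemma dl_orthonormal : IsOrthonormalAt gm 0 dl := by
  intro a b
  rw [gm_zero, Matrix.one_mulVec]
  simp [dl, dotProduct, Pi.single_apply, eq_comm]

/-- **Main result.** There are a connected open set `U ⊆ ℝ⁴` and a smooth Riemannian metric `g` on
`U` such that `(U, g)` satisfies `(𝓛_3)` but not `(𝓛_2)`. -/
theorem result :
    ∃ (U : Set (Vec 4)) (g : MetricField 4), IsConnected U ∧ IsRiemannianMetricOn g U ∧
      ConditionL g U 3 ∧ ¬ ConditionL g U 2 := by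
  obtain ⟨r, hr, hball⟩ := Metric.eventually_nhds_iff_ball.mp
    (eventually_pos.and eventually_posDef)
  refine ⟨Metric.ball 0 r, gm, ?_, ⟨Metric.isOpen_ball, ?_, fun x hx => (hball x hx).2⟩, ?_, ?_⟩
  · exact ⟨⟨0, Metric.mem_ball_self hr⟩, (convex_ball 0 r).isPreconnected⟩
  · exact fun i j => (contDiff_gm i j).contDiffOn
  · intro x hx e he T hT
    rw [ricLForm3 gm x e T hT, sD_eq gm x e he T, sC_eq gm x e he T]
    have hsum : ∀ t : Fin 4 → Fin 4 → Fin 4 → ℝ, (∀ p q r, t p q r = t q p r) →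
        (∀ p q r, t p q r = t p r q) → 0 ≤ form x t := by
      intro t h1 h2
      by_cases hz : ∑ p, ∑ q, ∑ r, t p q r ^ 2 = 0
      · have ht : t = fun p q r => 0 * t p q r := by
          have h3 : ∀ p q r, t p q r = 0 := by
            intro p q r
            have e1 := (Finset.sum_eq_zero_iff_of_nonneg (fun p _ =>
              Finset.sum_nonneg fun q _ => Finset.sum_nonneg fun r _ => sq_nonneg (t p q r))).mp hz
              p (Finset.mem_univ p)
            have e2 := (Finset.sum_eq_zero_iff_of_nonneg (fun q _ =>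
              Finset.sum_nonneg fun r _ => sq_nonneg (t p q r))).mp e1 q (Finset.mem_univ q)
            have e3 := (Finset.sum_eq_zero_iff_of_nonneg (fun r _ => sq_nonneg (t p q r))).mp e2 r
              (Finset.mem_univ r)
            exact pow_eq_zero_iff (two_ne_zero) |>.mp e3
          funext p q r
          rw [h3]; ring
        rw [ht, form_scale]
        simp
      · have hs : 0 < ∑ p, ∑ q, ∑ r, t p q r ^ 2 :=
          lt_of_le_of_ne (Finset.sum_nonneg fun p _ => Finset.sum_nonneg fun q _ =>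
            Finset.sum_nonneg fun r _ => sq_nonneg _) (Ne.symm hz)
        set c := (Real.sqrt (∑ p, ∑ q, ∑ r, t p q r ^ 2))⁻¹ with hc
        have hcpos : 0 < c := inv_pos.mpr (Real.sqrt_pos.mpr hs)
        have hc2 : c ^ 2 * ∑ p, ∑ q, ∑ r, t p q r ^ 2 = 1 := by
          rw [hc, inv_pow, Real.sq_sqrt hs.le, inv_mul_cancel₀ hs.ne']
        have h3 := (hball x hx).1 (fun p q r => c * t p q r) ⟨⟨fun p q r => by
            simp only []; rw [h1], fun p q r => by simp only []; rw [h2]⟩, by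
          simp only [mul_pow, ← Finset.mul_sum]
          exact hc2⟩
        rw [form_scale] at h3
        exact ((pos_iff_pos_of_mul_pos h3).mp (pow_pos hcpos 2)).le
    exact hsum (fun p q r => T ![dl p, dl q, dl r])
      (fun p q r => symm01 hT _ _ _) (fun p q r => symm12 hT _ _ _)
  · intro h
    have h1 := h 0 (Metric.mem_ball_self hr) dl dl_orthonormal badTensor badTensor_symm
    rw [badTensor_neg] at h1
    linarith

end Pool.Agent.Results.MP_9e0eae_gt.LichnerowiczL3NotL2
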